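import Pool.Agent.Helper61.LN.Goals
import Pool.Agent.Helper31.Sk.OrDir

/-!
# PROJECT LN (MP_c65973_gt), packet LN-TAU: the connected sum is a linear map of the classes
-/

set_option autoImplicit false

namespace Pool.Agent.Helper82.LN.TAU

open Pool.Agent.Helper31.Sk Pool.Agent.Helper35.Skl Pool.Agent.Helper61.LN

universe u

/-! ### oriented diagrams (copied from the skein project) -/

theorem legalO_append {l l' : List Bool} {U V : OWord} :
    LegalO l (U ++ V) l' ↔ ∃ d, LegalO l U d ∧ LegalO d V l' := by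
  induction U generalizing l with
  | nil => simp [LegalO]
  | cons s U ih =>
    obtain ⟨s, d⟩ := s
    simp only [List.cons_append, LegalO, ih]
    constructor
    · rintro ⟨h1, d', h2, h3⟩; exact ⟨d', ⟨h1, h2⟩, h3⟩
    · rintro ⟨d', ⟨h1, h2⟩, h3⟩; exact ⟨h1, d', h2, h3⟩

theorem und_append (U V : OWord) : und (U ++ V) = und U ++ und V := by simp [und]

theorem und_shiftO (l r : List Bool) (W : OWord) : und (shiftO l r W) = shift l.length (und W) := by
  simp [und, shiftO, shift, List.map_map, Function.comp_def]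

theorem passes_left (i : ℕ) (g : Gen) (l e d : List Bool) (h : d ∈ passes i g e) :
    l ++ d ∈ passes (i + l.length) g (l ++ e) := by
  induction l with
  | nil => simpa using h
  | cons x l ih =>
    rw [List.length_cons, ← add_assoc]
    show x :: (l ++ d) ∈ passes (i + l.length + 1) g (x :: (l ++ e))
    simp only [passes, List.mem_map]
    exact ⟨_, ih, rfl⟩

theorem legalO_shift {e e' : List Bool} {W : OWord} (h : LegalO e W e') (l r : List Bool) :
    LegalO (l ++ e ++ r) (shiftO l r W) (l ++ e' ++ r) := by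
  induction W generalizing e with
  | nil =>
    have : e = e' := h
    rw [this]
    rfl
  | cons s W ih =>
    obtain ⟨s, d⟩ := s
    exact ⟨passes_right _ _ _ _ _ (passes_left _ _ _ _ _ h.1), ih h.2⟩

theorem legal_und {W : OWord} : ∀ {l l' : List Bool}, LegalO l W l' →
    Legal l.length (und W) l'.length := by
  induction W with
  | nil =>
    intro l l' h
    have : l = l' := h
    rw [this]
    rfl
  | cons s W ih =>
    obtain ⟨⟨i, g⟩, d⟩ := s
    intro l l' h
    have h1 := length_passes _ _ _ _ h.1
    refine ⟨h1.1, ?_⟩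
    have h2 := ih h.2
    rw [h1.2] at h2
    exact h2

theorem dir_lift {w : Word} : ∀ {l l' : List Bool}, Dir l w l' → ∃ W, und W = w ∧ LegalO l W l' := by
  induction w with
  | nil => intro l l' h; exact ⟨[], rfl, h⟩
  | cons s w ih =>
    obtain ⟨i, g⟩ := s
    rintro l l' ⟨d, hd, h⟩
    obtain ⟨W, h1, h2⟩ := ih h
    exact ⟨((i, g), d) :: W, by rw [← h1]; rfl, hd, h2⟩

/-! ### words -/

theorem shift_inj (a : ℕ) : Function.Injective (shift a) := by
  refine List.map_injective_iff.2 ?_
  rintro ⟨i, g⟩ ⟨j, g'⟩ h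
  simp only [Prod.mk.injEq] at h ⊢
  exact ⟨by omega, h.2⟩

theorem ins_inj (u : Word) (a : ℕ) (v : Word) :
    Function.Injective (fun t : Word => u ++ shift a t ++ v) := by
  intro t t' h
  simp only [List.append_assoc] at h
  have h1 := List.append_cancel_left h
  exact shift_inj a (List.append_cancel_right h1)

/-- sliding of `T` to the place after an inserted tangle -/
theorem slide_at (h1 : S_SLIDE) {T : Word} (hT : Good T) {u v t : Word} {a n : ℕ} (hn : 1 ≤ n)
    (ht : Legal 0 t n) (hk : IsKnot (u ++ shift a t ++ v)) :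
    Iso 0 0 (con T (u ++ shift a t ++ v)) (u ++ shift a t ++ (shift a T ++ v)) := by
  have hne : t ≠ [] := by
    rintro rfl
    have : (0 : ℕ) = n := ht
    omega
  obtain ⟨t', e, -⟩ := first_piece ht hne
  obtain ⟨q, hq, -⟩ := legal_append.1 hk.1
  obtain ⟨l, hl, hlq⟩ := legal_append.1 hq
  have hal : a ≤ l := by
    rw [e, sh_cons] at hlq
    have := hlq.1
    simp only [Gen.src] at this
    omega
  obtain ⟨r, rfl⟩ := Nat.exists_eq_add_of_le hal
  have h2 := leg_sh a r ht
  have h3 : Legal 0 (u ++ shift a t) (n + a + r) := by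
    refine legal_append.2 ⟨a + r, hl, ?_⟩
    rw [zero_add] at h2
    exact h2
  have h4 := h1 T hT (u ++ shift a t) v (n + a + r) a hk h3 (by omega)
  simpa only [List.append_assoc] using h4

section
variable {A : Type u} [Ring A] {M : MovesU A} {N : MovesD A}

theorem iso_mem {w w' : Kn} (h : Iso 0 0 w.1 w'.1) :
    (Finsupp.single w 1 - Finsupp.single w' 1 : KLin A) ∈ RelK M N :=
  Submodule.subset_span (Or.inl (Or.inl ⟨w, w', h, rfl⟩))

theorem map_sub {y : KLin A} {a b : Kn → Kn} (h : ∀ w ∈ y.support, Iso 0 0 (a w).1 (b w).1) :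
    y.mapDomain a - y.mapDomain b ∈ RelK M N := by
  have e : y.mapDomain a - y.mapDomain b =
      ∑ w ∈ y.support, y w • (Finsupp.single (a w) 1 - Finsupp.single (b w) 1 : KLin A) := by
    simp only [Finsupp.mapDomain, Finsupp.sum, smul_sub, Finset.sum_sub_distrib,
      Finsupp.smul_single, smul_eq_mul, mul_one]
  rw [e]
  exact Submodule.sum_mem _ fun w hw => Submodule.smul_mem _ _ (iso_mem (h w hw))

theorem dg_support {y : KLin A} {w : Kn} (h : w ∈ y.support) : w.1 ∈ (dg y).support := by
  classical
  rw [Finsupp.mem_support_iff] at h ⊢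
  rw [dg, Finsupp.mapDomain_apply Subtype.val_injective]
  exact h

/-- the connected sum with `T` of knots -/
noncomputable def conK {T : Word} (hT : Good T) (w : Kn) : Kn := ⟨con T w.1, hT.knot w.1 w.2⟩

/-- the main step -/
theorem step (h1 : S_SLIDE) {T : Word} (hT : Good T) (u v : Word) (a n : ℕ) (hn : 1 ≤ n)
    (S : Word →₀ A) (hS : ∀ t ∈ S.support, Legal 0 t n) (y : KLin A) (hy : dg y = inU u a v S) :
    ∃ y' : KLin A, dg y' = inU u a (shift a T ++ v) S ∧
      y.mapDomain (conK hT) - y' ∈ RelK M N := by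
  classical
  set j : Word → Word := fun t => u ++ shift a t ++ v with hj
  set j' : Word → Word := fun t => u ++ shift a t ++ (shift a T ++ v) with hj'
  have hji : Function.Injective j := ins_inj u a v
  set g : Word → Word := Function.extend j j' id with hg
  have hgj : ∀ t, g (j t) = j' t := fun t => hji.extend_apply _ _ _
  have key : ∀ w ∈ y.support, Iso 0 0 (con T w.1) (g w.1) := by
    intro w hw
    have hw1 := dg_support hw
    rw [hy, inU] at hw1
    have hw2 := Finsupp.mapDomain_support hw1
    rw [Finset.mem_image] at hw2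
    obtain ⟨t, ht, htw⟩ := hw2
    have hk : IsKnot (u ++ shift a t ++ v) := by
      have := w.2
      rw [← htw] at this
      exact this
    have h3 := slide_at h1 hT hn (hS t ht) hk
    rw [← htw]
    show Iso 0 0 (con T (j t)) (g (j t))
    rw [hgj]
    exact h3
  have kk : ∀ w ∈ y.support, IsKnot (g w.1) := fun w hw =>
    (iso_isKnot (key w hw)).1 (hT.knot w.1 w.2)
  set b : Kn → Kn := fun w => if h : IsKnot (g w.1) then ⟨g w.1, h⟩ else w with hb
  have hbg : ∀ w ∈ y.support, (b w).1 = g w.1 := by
    intro w hw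
    simp only [hb]
    rw [dif_pos (kk w hw)]
  refine ⟨y.mapDomain b, ?_, map_sub fun w hw => ?_⟩
  · have e1 : dg (y.mapDomain b) = (dg y).mapDomain g := by
      rw [dg, dg, ← Finsupp.mapDomain_comp, ← Finsupp.mapDomain_comp]
      exact Finsupp.mapDomain_congr fun w hw => hbg w hw
    rw [e1, hy, inU, inU, ← Finsupp.mapDomain_comp]
    exact Finsupp.mapDomain_congr fun t _ => hgj t
  · rw [hbg w hw]
    exact key w hw

theorem inD_eq (U V : OWord) (l r : List Bool) (S : OWord →₀ A) :
    inD U l r V S = inU (und U) l.length (und V) (S.mapDomain und) := by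
  rw [inD, inU, ← Finsupp.mapDomain_comp]
  refine Finsupp.mapDomain_congr fun t _ => ?_
  simp only [Function.comp_apply, und_append, und_shiftO]

end

theorem t (h1 : S_SLIDE) (h2 : S_CONISO) : S_TAU.{u} := by
  classical
  intro A _ M N hM hN T hT
  have hle : RelK M N ≤ (RelK M N).comap (Finsupp.lmapDomain A A (conK hT)) := by
    unfold RelK
    rw [Submodule.span_le]
    change _ ⊆ ((RelK M N).comap (Finsupp.lmapDomain A A (conK hT)) : Set (KLin A))
    rintro x ((⟨w, w', hw, rfl⟩ | ⟨m, u, v, a, y, z, hm, hy, hz, rfl⟩) |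
      ⟨m, U, V, l, r, y, z, hm, hU, hV, hy, hz, rfl⟩)
    · rw [SetLike.mem_coe, Submodule.mem_comap, _root_.map_sub, Finsupp.lmapDomain_apply,
        Finsupp.lmapDomain_apply, Finsupp.mapDomain_single, Finsupp.mapDomain_single]
      exact iso_mem (h2 T hT w.1 w'.1 w.2 hw)
    · obtain ⟨hk, hL⟩ := hM m hm
      obtain ⟨y', hy1, hy2⟩ := step (M := M) (N := N) h1 hT u v a (2 * m.1) (by omega) m.2.1
        (fun t ht => hL t (Or.inl ht)) y hy
      obtain ⟨z', hz1, hz2⟩ := step (M := M) (N := N) h1 hT u v a (2 * m.1) (by omega) m.2.2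
        (fun t ht => hL t (Or.inr ht)) z hz
      have hg : y' - z' ∈ RelK M N :=
        Submodule.subset_span (Or.inl (Or.inr ⟨m, u, shift a T ++ v, a, y', z', hm, hy1, hz1, rfl⟩))
      rw [SetLike.mem_coe, Submodule.mem_comap, _root_.map_sub, Finsupp.lmapDomain_apply,
        Finsupp.lmapDomain_apply]
      have e : y.mapDomain (conK hT) - z.mapDomain (conK hT) =
          (y.mapDomain (conK hT) - y') - (z.mapDomain (conK hT) - z') + (y' - z') := by abel
      rw [e]
      exact Submodule.add_mem _ (Submodule.sub_mem _ hy2 hz2) hg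
    · obtain ⟨hk, hL⟩ := hN m hm
      obtain ⟨o, S1, S2⟩ := m
      simp only at hk hL hV hy hz
      rcases o with _ | ⟨c, o'⟩
      · exact absurd rfl hk
      have hn : 1 ≤ (c :: o').length := by simp
      have hS : ∀ S : OWord →₀ A, (∀ t ∈ S.support, LegalO [] t (c :: o')) →
          ∀ t ∈ (S.mapDomain und).support, Legal 0 t (c :: o').length := by
        intro S hS t ht
        have := Finsupp.mapDomain_support ht
        rw [Finset.mem_image] at this
        obtain ⟨W, hW, rfl⟩ := this
        exact legal_und (hS W hW)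
      rw [inD_eq] at hy hz
      obtain ⟨y', hy1, hy2⟩ := step (M := M) (N := N) h1 hT (und U) (und V) l.length
        (c :: o').length hn _ (hS S1 fun t ht => hL t (Or.inl ht)) y hy
      obtain ⟨z', hz1, hz2⟩ := step (M := M) (N := N) h1 hT (und U) (und V) l.length
        (c :: o').length hn _ (hS S2 fun t ht => hL t (Or.inr ht)) z hz
      obtain ⟨TO, hTO, hTL⟩ := dir_lift (hT.dir c)
      have hV' : und (shiftO l (o' ++ r) TO ++ V) = shift l.length T ++ und V := by
        rw [und_append, und_shiftO, hTO]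
      have hLV : LegalO (l ++ (c :: o') ++ r) (shiftO l (o' ++ r) TO ++ V) [] := by
        refine legalO_append.2 ⟨l ++ (c :: o') ++ r, ?_, hV⟩
        have := legalO_shift hTL l (o' ++ r)
        simpa using this
      rw [← hV', ← inD_eq U (shiftO l (o' ++ r) TO ++ V) l r] at hy1 hz1
      have hg : y' - z' ∈ RelK M N :=
        Submodule.subset_span (Or.inr ⟨(c :: o', S1, S2), U, shiftO l (o' ++ r) TO ++ V, l, r, y', z',
          hm, hU, hLV, hy1, hz1, rfl⟩)
      rw [SetLike.mem_coe, Submodule.mem_comap, _root_.map_sub, Finsupp.lmapDomain_apply,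
        Finsupp.lmapDomain_apply]
      have e : y.mapDomain (conK hT) - z.mapDomain (conK hT) =
          (y.mapDomain (conK hT) - y') - (z.mapDomain (conK hT) - z') + (y' - z') := by abel
      rw [e]
      exact Submodule.add_mem _ (Submodule.sub_mem _ hy2 hz2) hg
  refine ⟨(RelK M N).mapQ (RelK M N) (Finsupp.lmapDomain A A (conK hT)) hle, fun w => ?_⟩
  rw [skn, skn, Submodule.mkQ_apply, Submodule.mapQ_apply, Finsupp.lmapDomain_apply,
    Finsupp.mapDomain_single]
  rfl

end Pool.Agent.Helper82.LN.TAU
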