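import Pool.Agent.Helper64.LN.GoalsB
import Pool.Agent.Helper64.LN.GoalsC

set_option autoImplicit false

open Topology Filter Set Metric UpperHalfPlane
open scoped MatrixGroups

namespace Pool.Agent.Helper82.LN

open Pool.Agent.Helper64 Pool.Agent.Helper64.LN

universe v

/-- Uniqueness of lifts. -/
theorem lift_unique {X : Type v} [TopologicalSpace X] {B : Set X} {u : ℍ → X} (h : Uni B u)
    {A : Type*} [TopologicalSpace A] [PreconnectedSpace A] {G₁ G₂ : A → ℍ} (h₁ : Continuous G₁)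
    (h₂ : Continuous G₂) (he : ∀ a, u (G₁ a) = u (G₂ a)) (a : A) (ha : G₁ a = G₂ a) :
    G₁ = G₂ := by
  have hloc : IsLocalHomeomorph u := by
    rw [isLocalHomeomorph_iff_isLocalHomeomorphOn_univ]
    have h3 := h.cov.isLocalHomeomorphOn
    have e : u ⁻¹' Bᶜ = univ := by rw [← h.range]; exact preimage_range u
    rwa [e] at h3
  exact (T2Space.isSeparatedMap u).eq_of_comp_eq hloc.isLocallyInjective h₁ h₂
    (funext he) a ha

/-- GOAL T3 (lines reached without meeting the twist region are fixed). -/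
theorem goalT3 (hPRE : GoalPRE.{v}) (hL3 : GoalL3.{v}) : GoalT3.{v} := by
  intro X _ _ p P u C K γ ω hC T F M hF hω hM hCM g hg hex
  obtain ⟨σ, h0, h1, hσ⟩ := hex
  obtain ⟨hax, -⟩ := hPRE X p P u C K γ ω hC
  obtain ⟨-, L2, L3⟩ := hL3 X (insert p P) u hC.uni
  -- the path is fixed
  have e1 : (fun t : unitInterval => F (σ t)) = fun t => σ t := by
    refine lift_unique hC.uni (F.continuous.comp σ.continuous) σ.continuous (fun t => ?_) 0 ?_
    · change u (F (σ t)) = u (σ t)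
      rw [hF (σ t)]
      exact hM _ (hσ t)
    · rw [hax] at h0
      obtain ⟨s, hs⟩ := h0
      change F (σ 0) = σ 0
      rw [← hs, hω]
  have e1' : F (σ 1) = σ 1 := congrFun e1 1
  -- the end of the path
  obtain ⟨s, hs⟩ : ∃ s, g (ω s) = σ 1 := by
    obtain ⟨g', -, rfl⟩ := mem_deck.1 hg
    obtain ⟨γ', -, rfl⟩ := mem_deck.1 hC.deck
    have h2 : mh g' ((mh g')⁻¹ (σ 1)) = σ 1 := (mh g').apply_symm_apply _
    rw [← h2, ax_conj, hax] at h1
    obtain ⟨s, hs⟩ := h1
    exact ⟨s, by rw [hs, h2]⟩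
  -- the line is fixed
  have huω : ∀ t, T (u (ω t)) = u (ω t) := by
    intro t
    apply hM
    apply hCM
    rw [hC.core t]
    refine ⟨_, ?_, rfl⟩
    rw [mem_sphere_zero_iff_norm, Complex.norm_exp]
    simp
  have e2 : (fun t : ℝ => F (g (ω t))) = fun t => g (ω t) := by
    refine lift_unique hC.uni (F.continuous.comp (g.continuous.comp ω.continuous))
      (g.continuous.comp ω.continuous) (fun t => ?_) s ?_
    · change u (F (g (ω t))) = u (g (ω t))
      rw [hF, deck_apply hg, huω]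
    · change F (g (ω s)) = g (ω s)
      rw [hs, e1']
  have e2' : ∀ t, F (g (ω t)) = g (ω t) := fun t => congrFun e2 t
  have hd : g * γ * g⁻¹ ∈ deck u :=
    (deck u).mul_mem ((deck u).mul_mem hg hC.deck) ((deck u).inv_mem hg)
  refine L2 _ ((L3 T F hF).1 _ hd) _ hd (g (ω 0)) ?_
  have e3 : (g * γ * g⁻¹ : ℍ ≃ₜ ℍ) (g (ω 0)) = g (ω 1) := by
    change g (γ (g.symm (g (ω 0)))) = g (ω 1)
    rw [g.symm_apply_apply, ← hC.per 0, zero_add]
  have e4 : (F * (g * γ * g⁻¹) * F⁻¹ : ℍ ≃ₜ ℍ) (g (ω 0)) =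
      F ((g * γ * g⁻¹ : ℍ ≃ₜ ℍ) (F.symm (g (ω 0)))) := rfl
  have e5 : F.symm (g (ω 0)) = g (ω 0) := by
    rw [Homeomorph.symm_apply_eq, e2']
  rw [e4, e5, e3, e2']

end Pool.Agent.Helper82.LN
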